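import Pool.Agent.helper91.MM.SpecA

set_option autoImplicit false

namespace Pool.Agent.MM

open Pool.Agent.Scheepers Filter Topology

theorem FIA (h1 : TRA_stmt) : FIA_stmt := by
  intro k X hX hX2 hX3
  obtain ⟨Y, hY1, hY2, φ, hφ, hφinj, hφr⟩ := h1 X hX3
  have hφ1 : ∀ y, φ y ∈ X := fun y => by
    rw [← hφr]
    exact Set.mem_range_self y
  have hsurj : ∀ x ∈ X, ∃ y : ↥Y, φ y = x := by
    intro x hx
    rw [← hφr] at hx
    exact hx
  refine ⟨Y, hY1, hY2, ?_⟩
  let U : ℕ → ℕ → Set ↥Y := fun n m => {y | φ y ∉ F (n, m)}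
  have hne : ∀ n m, U n m ≠ Set.univ := by
    intro n m hcon
    obtain ⟨x, hx, hx'⟩ := hX2 (fun _ => m)
    obtain ⟨y, hy⟩ := hsurj x hx
    have : y ∈ U n m := by rw [hcon]; exact Set.mem_univ y
    apply this
    rw [hy]
    exact hx' n
  have hset : ∀ n y, {m | y ∉ U n m} = {m | φ y ∈ F (n, m)} := by
    intro n y
    ext m
    exact not_not
  have henc : ∀ n y, {m | y ∉ U n m}.encard ≤ (k n : ℕ∞) := by
    intro n y
    rw [hset]
    exact hX _ (hφ1 y) n
  have hfin : ∀ n y, {m | y ∉ U n m}.Finite := by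
    intro n y
    exact Set.finite_of_encard_le_coe (henc n y)
  refine ⟨fun n => Set.range (U n), fun n => ⟨?_, ?_, ?_, ?_⟩, ?_⟩
  · intro hfinr
    have h1 : ∃ V ∈ Set.range (U n), {m | U n m = V}.Infinite := by
      by_contra hcon
      push Not at hcon
      have h2 : (⋃ V ∈ Set.range (U n), {m | U n m = V}).Finite :=
        hfinr.biUnion (fun V h0 => hcon V h0)
      refine Set.infinite_univ (α := ℕ) (h2.subset ?_)
      intro m _
      exact Set.mem_biUnion (Set.mem_range_self m) rfl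
    obtain ⟨V, ⟨m, hm⟩, hinf⟩ := h1
    obtain ⟨y, hy⟩ : ∃ y, y ∉ V := by
      by_contra hcon
      push Not at hcon
      apply hne n m
      rw [hm]
      exact Set.eq_univ_of_forall hcon
    refine hinf ((hfin n y).subset ?_)
    intro m' hm'
    simp only [Set.mem_ofPred_eq] at hm' ⊢
    rw [hm']
    exact hy
  · rintro _ ⟨m, rfl⟩
    exact ((isClosed_F (n, m)).isOpen_compl).preimage hφ.continuous
  · rintro ⟨m, hm⟩
    exact hne n m hm
  · intro y
    have h2 : {V ∈ Set.range (U n) | y ∉ V} ⊆ U n '' {m | y ∉ U n m} := by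
      rintro _ ⟨⟨m, rfl⟩, hm⟩
      exact ⟨m, hm, rfl⟩
    exact (Set.encard_le_encard h2).trans ((Set.encard_image_le _ _).trans (henc n y))
  · intro V hV hcon
    choose h hh using hV
    obtain ⟨x, hx, hx'⟩ := hX2 h
    obtain ⟨y, hy⟩ := hsurj x hx
    have h1 : y ∈ ⋃ n, V n := by rw [hcon]; exact Set.mem_univ y
    obtain ⟨n, hn⟩ := Set.mem_iUnion.1 h1
    rw [← hh n] at hn
    apply hn
    rw [hy]
    exact hx' n

end Pool.Agent.MM
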