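import Pool.Agent.helper91.MM.SpecA

set_option autoImplicit false

namespace Pool.Agent.MM

open Pool.Agent.Scheepers Filter Topology

theorem FIB (h1 : TRA_stmt) : FIB_stmt := by
  intro X hX hX2 hXw hX3
  obtain ⟨Y, hY1, hY2, φ, hφ, hφinj, hφr⟩ := h1 X hX3
  have hφ1 : ∀ y, φ y ∈ X := fun y => by
    rw [← hφr]
    exact Set.mem_range_self y
  have hsurj : ∀ x ∈ X, ∃ y : ↥Y, φ y = x := by
    intro x hx
    rw [← hφr] at hx
    exact hx
  refine ⟨Y, hY1, hY2, ?_⟩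
  let U : ℕ × ℕ → Set ↥Y := fun w => {y | φ y ∉ F w}
  have hUinj : Function.Injective U := by
    intro w w' hww
    obtain ⟨x, hx, hx'⟩ := hXw w
    obtain ⟨y, hy⟩ := hsurj x hx
    have h2 : y ∉ U w := by
      intro h3
      apply h3
      rw [hy]
      exact (hx' w).2 rfl
    rw [hww] at h2
    have h3 : φ y ∈ F w' := not_not.1 h2
    rw [hy] at h3
    exact ((hx' w').1 h3).symm
  refine ⟨fun n => Set.range fun m => U (n, m), fun n => ⟨?_, ?_, ?_, ?_⟩, ?_⟩
  · refine Set.infinite_range_of_injective ?_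
    intro m m' hmm
    exact (Prod.ext_iff.1 (hUinj hmm)).2
  · rintro _ ⟨m, rfl⟩
    exact ((isClosed_F (n, m)).isOpen_compl).preimage hφ.continuous
  · rintro ⟨m, hm⟩
    obtain ⟨x, hx, hx'⟩ := hXw (n, m)
    obtain ⟨y, hy⟩ := hsurj x hx
    have hm' : U (n, m) = Set.univ := hm
    have h2 : y ∈ U (n, m) := by rw [hm']; exact Set.mem_univ y
    apply h2
    rw [hy]
    exact (hx' _).2 rfl
  · rintro _ ⟨m, rfl⟩ _ ⟨m', rfl⟩ hne
    refine Set.eq_univ_of_forall fun y => ?_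
    by_contra hcon
    have h2 : y ∉ U (n, m) ∧ y ∉ U (n, m') := not_or.1 hcon
    have h3 : φ y ∈ F (n, m) := not_not.1 h2.1
    have h4 : φ y ∈ F (n, m') := not_not.1 h2.2
    have h5 := hX _ (hφ1 y) n m m' h3 h4
    apply hne
    rw [h5]
  · intro V hV
    choose h hh using hV
    obtain ⟨x, hx, hx'⟩ := hX2 h
    obtain ⟨y, hy⟩ := hsurj x hx
    have hVinj : Function.Injective V := by
      intro n n' hnn
      rw [← hh n, ← hh n'] at hnn
      exact (Prod.ext_iff.1 (hUinj hnn)).1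
    refine ⟨y, (hx'.image (f := V) hVinj.injOn).mono ?_⟩
    rintro _ ⟨n, hn, rfl⟩
    refine ⟨⟨n, rfl⟩, ?_⟩
    rw [← hh n]
    intro h2
    apply h2
    rw [hy]
    exact hn

end Pool.Agent.MM
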