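import Pool.Agent.helper91.MM.SpecA

set_option autoImplicit false

namespace Pool.Agent.MM

open Pool.Agent.Scheepers Filter Topology

theorem SEC (h1 : SEQ_stmt) : SEC_stmt := by
  intro E _ hS C hC f _ hf
  rcases C.eq_empty_or_nonempty with hCe | hCne
  · exact ⟨fun _ => 0, fun x => (Set.eq_empty_iff_forall_notMem.1 hCe x.1 x.2).elim⟩
  have hext : ∀ n i, ∃ g : C(E, ℝ), g.restrict C = f n i := fun n i =>
    ContinuousMap.exists_restrict_eq hC (f n i)
  choose g hg using hext
  let G : ℕ → ℕ → C(E, ℝ) := fun n i =>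
    ⟨fun x => g n i x * max 0 (1 - (i : ℝ) * Metric.infDist x C), by
      have h2 : Continuous fun x => Metric.infDist x C := Metric.continuous_infDist_pt C
      fun_prop⟩
  have hG : ∀ n i x, G n i x = g n i x * max 0 (1 - (i : ℝ) * Metric.infDist x C) :=
    fun n i x => rfl
  have hGC : ∀ n i (x : ↥C), G n i x = f n i x := by
    intro n i x
    rw [hG, Metric.infDist_zero_of_mem x.2, mul_zero, sub_zero, max_eq_right zero_le_one, mul_one,
      ← hg n i]
    rfl
  obtain ⟨κ, hκ⟩ := h1 E hS G (by
    intro n x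
    by_cases hx : x ∈ C
    · have h2 := hf n ⟨x, hx⟩
      refine h2.congr fun i => ?_
      exact (hGC n i ⟨x, hx⟩).symm
    · have hpos : 0 < Metric.infDist x C := (hC.notMem_iff_infDist_pos hCne).1 hx
      obtain ⟨j, hj⟩ := exists_nat_gt (1 / Metric.infDist x C)
      refine tendsto_const_nhds.congr' ?_
      filter_upwards [eventually_ge_atTop j] with i hi
      rw [hG, max_eq_left, mul_zero]
      have h3 : (j : ℝ) ≤ i := by exact_mod_cast hi
      have h4 : 1 < (i : ℝ) * Metric.infDist x C := by
        rw [← div_lt_iff₀ hpos]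
        exact lt_of_lt_of_le hj h3
      linarith)
  refine ⟨κ, fun x => ?_⟩
  refine (hκ x).congr fun n => ?_
  exact hGC n (κ n) x

end Pool.Agent.MM
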