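import Pool.Agent.helper91.MM.SpecA

set_option autoImplicit false

namespace Pool.Agent.MM

open Pool.Agent.Scheepers Filter Topology

theorem SEQ : SEQ_stmt := by
  intro E _ h f hf
  rcases isEmpty_or_nonempty E with hE | ⟨⟨x0⟩⟩
  · exact ⟨fun _ => 0, fun x => (hE.false x).elim⟩
  let F : ℕ → ℕ → C(E, ℝ) := fun n i => ⟨fun x => |f n i x| + 1 / ((i : ℝ) + 1), by fun_prop⟩
  have hF : ∀ n i x, F n i x = |f n i x| + 1 / ((i : ℝ) + 1) := fun n i x => rfl
  have hFpos : ∀ n i x, 0 < F n i x := by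
    intro n i x
    rw [hF]
    positivity
  have hFt : ∀ n x, Tendsto (fun i => F n i x) atTop (𝓝 0) := by
    intro n x
    have h1 : Tendsto (fun i => |f n i x|) atTop (𝓝 0) := by
      have := (hf n x).abs
      rwa [abs_zero] at this
    have h2 : Tendsto (fun i : ℕ => 1 / ((i : ℝ) + 1)) atTop (𝓝 0) :=
      tendsto_one_div_add_atTop_nhds_zero_nat
    have h3 := h1.add h2
    rwa [add_zero] at h3
  have hi0 : ∀ n : ℕ, ∃ i0 : ℕ, ∀ i, i0 ≤ i → F n i x0 < 1 / ((n : ℝ) + 1) := by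
    intro n
    have h1 := (hFt n x0).eventually (gt_mem_nhds (show (0 : ℝ) < 1 / ((n : ℝ) + 1) by positivity))
    exact h1.exists_forall_of_atTop
  choose i0 hi0 using hi0
  let A : ℕ → Set C(E, ℝ) := fun n => F n '' Set.Ici (i0 n)
  obtain ⟨g, hgA, hginf, hgfin⟩ := h A (by
    intro n
    refine ⟨?_, (Set.to_countable _).image _, ?_, ?_⟩
    · intro hfin
      obtain ⟨u, hu, humin⟩ := Set.exists_min_image (A n) (fun u => u x0) hfin
        ⟨F n (i0 n), ⟨i0 n, Set.self_mem_Ici, rfl⟩⟩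
      obtain ⟨i, hi, rfl⟩ := hu
      obtain ⟨j, hj⟩ := ((hFt n x0).eventually (gt_mem_nhds (hFpos n i x0))).exists_forall_of_atTop
      have h1 := hj (max j (i0 n)) (le_max_left _ _)
      have h2 := humin (F n (max j (i0 n))) ⟨_, Set.mem_Ici.2 (le_max_right _ _), rfl⟩
      exact absurd h1 (not_lt.2 h2)
    · rintro ⟨i, -, hi⟩
      have h1 := hFpos n i x0
      rw [hi] at h1
      exact absurd h1 (lt_irrefl _)
    · intro x ε hε
      obtain ⟨j, hj⟩ := ((hFt n x).eventually (gt_mem_nhds hε)).exists_forall_of_atTop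
      refine ((Set.finite_lt_nat j).image (F n)).subset ?_
      rintro _ ⟨⟨i, -, rfl⟩, hi⟩
      refine ⟨i, ?_, rfl⟩
      by_contra hcon
      have h1 := hj i (not_lt.1 hcon)
      rw [abs_of_pos (hFpos n i x)] at hi
      exact absurd h1 (not_lt.2 hi))
  choose κ hκ1 hκ2 using hgA
  refine ⟨κ, fun x => ?_⟩
  have hgpos : ∀ n y, 0 < g n y := by
    intro n y
    rw [← hκ2]
    exact hFpos _ _ _
  have hfib : ∀ u ∈ Set.range g, {n | g n = u}.Finite := by
    rintro _ ⟨m, rfl⟩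
    obtain ⟨j, hj⟩ := exists_nat_one_div_lt (hgpos m x0)
    refine (Set.finite_lt_nat j).subset ?_
    intro n hn
    have hn' : g n = g m := hn
    by_contra hcon
    have h1 : j ≤ n := not_lt.1 hcon
    have h2 : g n x0 < 1 / ((n : ℝ) + 1) := by
      rw [← hκ2 n]
      exact hi0 n _ (hκ1 n)
    rw [hn'] at h2
    have h3 : 1 / ((n : ℝ) + 1) ≤ 1 / ((j : ℝ) + 1) := by
      apply one_div_le_one_div_of_le (by positivity)
      have : (j : ℝ) ≤ n := by exact_mod_cast h1
      linarith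
    linarith
  have hgt : Tendsto (fun n => g n x) atTop (𝓝 0) := by
    rw [Metric.tendsto_atTop]
    intro ε hε
    have h1 : {n | ε ≤ |g n x|}.Finite := by
      refine (Set.Finite.biUnion (hgfin x ε hε) (fun u hu => hfib u hu.1)).subset ?_
      intro n hn
      exact Set.mem_biUnion (show g n ∈ {f ∈ Set.range g | ε ≤ |f x|} from ⟨⟨n, rfl⟩, hn⟩) rfl
    obtain ⟨B, hB⟩ := h1.bddAbove
    refine ⟨B + 1, fun n hn => ?_⟩
    rw [Real.dist_eq, sub_zero]
    by_contra hcon
    have := hB (not_lt.1 hcon)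
    omega
  refine squeeze_zero_norm (fun n => ?_) hgt
  rw [Real.norm_eq_abs, ← hκ2 n, hF]
  have : (0 : ℝ) < 1 / ((κ n : ℝ) + 1) := by positivity
  linarith

end Pool.Agent.MM
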