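import Pool.Agent.helper91.MM.SpecA

set_option autoImplicit false

namespace Pool.Agent.MM

open Pool.Agent.Scheepers Filter Topology

/-- the admissible sets of size `N` -/
def SYA_V (k : ℕ → ℕ) (N : ℕ) : Set (Set (ℕ × ℕ)) :=
  {t | ∀ n, ∀ s : Finset ℕ, (∀ m ∈ s, (n, m) ∈ t) → s.card ≤ min N (k n)}

theorem SYA_exists (k : ℕ → ℕ) {N : ℕ} {t : Set (ℕ × ℕ)} (ht : t ∈ SYA_V k N) (n : ℕ) :
    ∃ m, m ≤ N ∧ (n, m) ∉ t := by
  by_contra hcon
  push Not at hcon
  have h1 := ht n (Finset.range (N + 1)) (fun m hm => hcon m (by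
    rw [Finset.mem_range] at hm; omega))
  rw [Finset.card_range] at h1
  have h2 := min_le_left N (k n)
  omega

theorem SYA_rowfin (k : ℕ → ℕ) {N : ℕ} {t : Set (ℕ × ℕ)} (ht : t ∈ SYA_V k N) (n : ℕ) :
    {m | (n, m) ∈ t}.Finite := by
  by_contra hinf
  obtain ⟨s, hs, hc⟩ := Set.Infinite.exists_subset_card_eq hinf (N + 1)
  have h1 := ht n s (fun m hm => hs hm)
  have h2 := min_le_left N (k n)
  omega

theorem SYA_lim (k : ℕ → ℕ) (N : ℕ) (U : Ultrafilter ℕ) (t : ℕ → Set (ℕ × ℕ))
    (ht : ∀ i, t i ∈ SYA_V k N) : {w | ∀ᶠ i in (U : Filter ℕ), w ∈ t i} ∈ SYA_V k N := by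
  intro n s hs
  have h1 : ∀ᶠ i in (U : Filter ℕ), ∀ m ∈ s, (n, m) ∈ t i := by
    rw [Filter.eventually_all_finset]
    exact hs
  obtain ⟨i, hi⟩ := h1.exists
  exact ht i n s hi

theorem SYA : SYA_stmt := by
  intro k hk
  refine ⟨⟨SYA_V k, {z | ∀ n, {m | z ∈ F (n, m)}.encard ≤ (k n : ℕ∞)}, ?_, ?_, ?_, ?_, ?_, ?_⟩,
    fun N => rfl, rfl⟩
  · intro N M hNM t ht n s hs
    exact (ht n s hs).trans (min_le_min_right _ hNM)
  · intro N t ht
    obtain ⟨m, hm, hmt⟩ := SYA_exists k ht 0
    exact ⟨(0, m), Nat.zero_le _, hm, hmt⟩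
  · exact SYA_lim k
  · intro N U t ht
    obtain ⟨M, hM⟩ := (Filter.tendsto_atTop.1 hk (2 * N)).exists_forall_of_atTop
    have hlim := SYA_lim k N U t ht
    set tt : Set (ℕ × ℕ) := {w | ∀ᶠ i in (U : Filter ℕ), w ∈ t i} with htt
    have h1 : ∀ᶠ i in (U : Filter ℕ), ∀ n ∈ Finset.range M, ∀ m, (n, m) ∈ tt → (n, m) ∈ t i := by
      rw [Filter.eventually_all_finset]
      intro n _
      have hfin := SYA_rowfin k hlim n
      have h2 : ∀ᶠ i in (U : Filter ℕ), ∀ m ∈ hfin.toFinset, (n, m) ∈ t i := by
        rw [Filter.eventually_all_finset]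
        intro m hm
        have h3 : (n, m) ∈ tt := by simpa using hm
        exact h3
      filter_upwards [h2] with i hi m hm
      exact hi m (by simpa using hm)
    filter_upwards [h1] with i hi
    intro n s hs
    by_cases hn : n < M
    · have h2 : ∀ m ∈ s, (n, m) ∈ t i := by
        intro m hm
        rcases hs m hm with h3 | h3
        · exact hi n (Finset.mem_range.2 hn) m h3
        · exact h3
      refine (ht i n s h2).trans (min_le_min_right _ (by omega))
    · have hkn := hM n (not_lt.1 hn)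
      classical
      have h1 : (s.filter (fun m => (n, m) ∈ tt)).card ≤ min N (k n) :=
        hlim n _ (fun m hm => (Finset.mem_filter.1 hm).2)
      have h2 : (s.filter (fun m => ¬ (n, m) ∈ tt)).card ≤ min N (k n) := by
        refine ht i n _ (fun m hm => ?_)
        rw [Finset.mem_filter] at hm
        rcases hs m hm.1 with h3 | h3
        · exact absurd h3 hm.2
        · exact h3
      have h3 := Finset.card_filter_add_card_filter_not (s := s) (fun m => (n, m) ∈ tt)
      have h4 := min_le_left N (k n)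
      have h5 : min (2 * N) (k n) = 2 * N := min_eq_left hkn
      omega
  · intro N t ht z hz n
    by_contra hcon
    push Not at hcon
    have h1 : ((k n + 1 : ℕ) : ℕ∞) ≤ {m | z ∈ F (n, m)}.encard := by
      have h2 := Order.add_one_le_of_lt hcon
      exact_mod_cast h2
    obtain ⟨r, hr1, hr2⟩ := Set.exists_subset_encard_eq h1
    have hfin : r.Finite := Set.finite_of_encard_eq_coe hr2
    have h3 := ht n hfin.toFinset (fun m hm => by
      have hm' : m ∈ r := by simpa using hm
      have hm2 : z ∈ F (n, m) := hr1 hm'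
      by_contra hnt
      exact hz _ hnt hm2)
    have h4 : hfin.toFinset.card = k n + 1 := by
      have h5 : (hfin.toFinset.card : ℕ∞) = ((k n + 1 : ℕ) : ℕ∞) := by
        rw [← hr2, hfin.encard_eq_coe_toFinset_card]
      exact_mod_cast h5
    have h6 := min_le_right N (k n)
    omega
  · intro N
    obtain ⟨M, hM⟩ := (Filter.tendsto_atTop.1 hk (N + 1)).exists_forall_of_atTop
    refine ⟨max (N + 1) M, (Nat.le_succ N).trans (le_max_left _ _), ?_⟩
    intro t ht Q
    obtain ⟨m, hm, hmt⟩ := SYA_exists k ht M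
    by_cases hQ : (M, m) ∈ Q
    · left
      refine ⟨(M, m), hQ, ?_⟩
      intro n s hs
      by_cases hn : n = M
      · classical
        have h1 : (s.erase m).card ≤ min N (k n) := by
          refine ht n _ (fun m' hm' => ?_)
          rw [Finset.mem_erase] at hm'
          rcases Set.mem_insert_iff.1 (hs m' hm'.2) with h2 | h2
          · exact absurd (Prod.ext_iff.1 h2).2 hm'.1
          · exact h2
        have h2 : s.card - 1 ≤ (s.erase m).card := Finset.pred_card_le_card_erase
        have h3 := min_le_left N (k n)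
        have h4 : N + 1 ≤ k n := by
          rw [hn]
          exact hM M le_rfl
        have h5 : N + 1 ≤ max (N + 1) M := le_max_left _ _
        have h6 : N + 1 ≤ min (max (N + 1) M) (k n) := le_min h5 h4
        omega
      · have h1 : ∀ m' ∈ s, (n, m') ∈ t := by
          intro m' hm'
          rcases Set.mem_insert_iff.1 (hs m' hm') with h2 | h2
          · exact absurd (Prod.ext_iff.1 h2).1 hn
          · exact h2
        refine (ht n s h1).trans (min_le_min_right _ ?_)
        exact (Nat.le_succ N).trans (le_max_left _ _)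
    · right
      refine ⟨(M, m), hQ, hmt, le_max_right _ _, ?_⟩
      exact (hm.trans (Nat.le_succ N)).trans (le_max_left _ _)

end Pool.Agent.MM
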