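import Pool.Agent.helper91.MM.SpecA

set_option autoImplicit false

namespace Pool.Agent.MM

open Pool.Agent.Scheepers Filter Topology

theorem TRA : TRA_stmt := by
  intro X hX
  obtain ⟨f, hf1, hf2, hf3⟩ := exists_cantor_irrational
  have hfemb : IsInducing f := (hf2.isClosedEmbedding hf3).isInducing
  let Y : Set ℝ := f '' X
  have hpre : ∀ y : ↥Y, ∃ x ∈ X, f x = y := fun y => y.2
  choose φ hφ1 hφ2 using hpre
  have hφ : IsInducing φ := by
    have h1 : IsInducing (f ∘ φ) := by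
      have : f ∘ φ = (Subtype.val : ↥Y → ℝ) := by
        funext y
        exact hφ2 y
      rw [this]
      exact IsInducing.subtypeVal
    exact (hfemb.of_comp_iff).1 h1
  have hsurj : ∀ x ∈ X, ∃ y : ↥Y, φ y = x := by
    intro x hx
    refine ⟨⟨f x, ⟨x, hx, rfl⟩⟩, hf3 ?_⟩
    rw [hφ2]
  refine ⟨Y, ?_, ?_, φ, hφ, ?_, ?_⟩
  · rintro _ ⟨x, _, rfl⟩
    exact hf1 (Set.mem_range_self x)
  · intro Z hZ hYZ
    let ψ : ↥Z → (ℕ → Bool) := fun z => φ ⟨z.1, hZ z.2⟩
    have hψ : IsInducing ψ := hφ.comp (Topology.IsEmbedding.inclusion hZ).isInducing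
    let C : Set (ℕ → Bool) := f ⁻¹' (Y \ Z)
    have hC : C.Countable := hYZ.preimage_of_injOn hf3.injOn
    have hsel : Sel ψ := by
      intro W b hW hconv
      obtain ⟨κ, hκ⟩ := hX C hC W b hW (by
        intro n x hx
        have hxZ : f x ∈ Z := by
          by_contra hcon
          exact hx.2 ⟨⟨x, hx.1, rfl⟩, hcon⟩
        have hψx : ψ ⟨f x, hxZ⟩ = x := by
          apply hf3
          show f (φ ⟨f x, hZ hxZ⟩) = f x
          rw [hφ2]
        obtain ⟨k0, hk0⟩ := hconv n ⟨f x, hxZ⟩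
        rw [hψx] at hk0
        exact ⟨k0, hk0⟩)
      refine ⟨κ, fun z => hκ (ψ z) ⟨hφ1 _, ?_⟩⟩
      intro hz
      have h1 : f (ψ z) ∈ Y \ Z := hz
      have h2 : f (ψ z) = z.1 := hφ2 ⟨z.1, hZ z.2⟩
      rw [h2] at h1
      exact h1.2 z.2
    intro A hA
    exact cp_select hψ hsel A hA
  · intro y y' h
    apply Subtype.ext
    rw [← hφ2 y, ← hφ2 y', h]
  · ext x
    constructor
    · rintro ⟨y, rfl⟩
      exact hφ1 y
    · intro hx
      exact hsurj x hx

end Pool.Agent.MM
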